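import Mathlib

/-! Project LK (helper461), leaf J: moving a vertex to a smaller class. -/

set_option autoImplicit false

namespace Pool.Agent.N886.LKJ

open Filter Topology

/-- the contribution of a class of size `s` -/
noncomputable def ph (p n s : ℝ) : ℝ := s * ((s - 1) * (n - s) ^ p + (n - s) * (n - 2) ^ p)

theorem conv_le {r a b : ℝ} (hr : 1 ≤ r) (ha : 0 ≤ a) (hab : a + 2 ≤ b) :
    (a + 1) ^ r + (b - 1) ^ r ≤ a ^ r + b ^ r := by
  have hc := convexOn_rpow hr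
  have hD : 0 < b - a := by linarith
  set t : ℝ := 1 / (b - a) with ht
  have t0 : 0 ≤ t := by positivity
  have t1 : t ≤ 1 := by rw [ht, div_le_one hD]; linarith
  have htD : t * (b - a) = 1 := by rw [ht]; field_simp
  have hbm : b ∈ Set.Ici (0 : ℝ) := by rw [Set.mem_Ici]; linarith
  have ham : a ∈ Set.Ici (0 : ℝ) := ha
  have h1 := hc.2 ham hbm (show 0 ≤ 1 - t by linarith) t0 (by ring)
  have h2 := hc.2 ham hbm t0 (show 0 ≤ 1 - t by linarith) (by ring)
  simp only [smul_eq_mul] at h1 h2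
  have e1 : (1 - t) * a + t * b = a + 1 := by linarith
  have e2 : t * a + (1 - t) * b = b - 1 := by linarith
  rw [e1] at h1
  rw [e2] at h2
  linarith

/-- tangent: `s^q - t^q ≤ q s^(q-1) (s - t)` for `0 < t ≤ s`, `q ≥ 1` -/
theorem tang' {s t q : ℝ} (ht : 0 < t) (hst : t ≤ s) (hq : 1 ≤ q) :
    s ^ q - t ^ q ≤ q * s ^ (q - 1) * (s - t) := by
  have hs : 0 < s := by linarith
  have h := one_add_mul_self_le_rpow_one_add (s := t / s - 1) (p := q) (by
    have : 0 < t / s := by positivity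
    linarith) hq
  have e1 : 1 + (t / s - 1) = t / s := by ring
  rw [e1, Real.div_rpow ht.le hs.le] at h
  have hsq : 0 < s ^ q := Real.rpow_pos_of_pos hs q
  have h2 := mul_le_mul_of_nonneg_left h hsq.le
  rw [mul_div_cancel₀ _ hsq.ne'] at h2
  have e2 : s ^ q = s ^ (q - 1) * s := by
    rw [← Real.rpow_add_one hs.ne']; congr 1; ring
  have e3 : s ^ q * (1 + q * (t / s - 1)) = s ^ q - q * s ^ (q - 1) * (s - t) := by
    rw [e2]; field_simp; ring
  rw [e3] at h2
  linarith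

/-- tangent from below: `q t^(q-1) (s - t) ≤ s^q - t^q` for `0 < t ≤ s`, `q ≥ 1` -/
theorem tang'' {s t q : ℝ} (ht : 0 < t) (hst : t ≤ s) (hq : 1 ≤ q) :
    q * t ^ (q - 1) * (s - t) ≤ s ^ q - t ^ q := by
  have hs : 0 < s := by linarith
  have h := one_add_mul_self_le_rpow_one_add (s := s / t - 1) (p := q) (by
    have : 0 < s / t := by positivity
    linarith) hq
  have e1 : 1 + (s / t - 1) = s / t := by ring
  rw [e1, Real.div_rpow hs.le ht.le] at h
  have hsq : 0 < t ^ q := Real.rpow_pos_of_pos ht q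
  have h2 := mul_le_mul_of_nonneg_left h hsq.le
  rw [mul_div_cancel₀ _ hsq.ne'] at h2
  have e2 : t ^ q = t ^ (q - 1) * t := by
    rw [← Real.rpow_add_one ht.ne']; congr 1; ring
  have e3 : t ^ q * (1 + q * (s / t - 1)) = t ^ q + q * t ^ (q - 1) * (s - t) := by
    rw [e2]; field_simp
  rw [e3] at h2
  linarith

/-- second difference -/
theorem secd {q a b : ℝ} (hq : 2 ≤ q) (ha : 0 < a) (hab : a + 2 ≤ b) :
    a ^ q + b ^ q - ((a + 1) ^ q + (b - 1) ^ q) ≤ q * (q - 1) * (b - a) * b ^ (q - 2) := by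
  have hb : 0 < b := by linarith
  have h1 := tang' (s := b) (t := b - 1) (q := q) (by linarith) (by linarith) (by linarith)
  have h2 := tang'' (s := a + 1) (t := a) (q := q) ha (by linarith) (by linarith)
  have h3 := tang' (s := b) (t := a) (q := q - 1) ha (by linarith) (by linarith)
  have e : q - 1 - 1 = q - 2 := by ring
  rw [e] at h3
  have e1 : b - (b - 1) = 1 := by ring
  have e2 : a + 1 - a = 1 := by ring
  rw [e1, mul_one] at h1
  rw [e2, mul_one] at h2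
  have h4 := mul_le_mul_of_nonneg_left h3 (by linarith : (0 : ℝ) ≤ q)
  linarith

/-- the limit -/
theorem lim (β : ℝ) (h0 : 0 < β) (h1 : β < 1) : ∃ p₀ : ℝ, 2 ≤ p₀ ∧ ∀ p : ℝ, p₀ ≤ p →
    (p + 2) * (p + 1) * β ^ p + p * (p - 1) * β ^ (p - 2) ≤ 1 / 2 := by
  set c : ℝ := - Real.log β with hc
  have hc0 : 0 < c := by
    have := Real.log_neg h0 h1
    linarith
  have hT : Tendsto (fun x : ℝ => x ^ 2 * Real.exp (-x)) atTop (𝓝 0) := by
    exact Real.tendsto_pow_mul_exp_neg_atTop_nhds_zero 2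
  have hT2 : Tendsto (fun p : ℝ => (c * p) ^ 2 * Real.exp (-(c * p))) atTop (𝓝 0) :=
    hT.comp (tendsto_id.const_mul_atTop hc0)
  set δ : ℝ := c ^ 2 * (1 / (2 * (6 + β ^ (-2 : ℝ)))) with hδ
  have hb2 : 0 < β ^ (-2 : ℝ) := Real.rpow_pos_of_pos h0 _
  have hδ0 : 0 < δ := by positivity
  obtain ⟨p₁, hp₁⟩ := (hT2.eventually (gt_mem_nhds hδ0)).exists_forall_of_atTop
  refine ⟨max p₁ 2, le_max_right _ _, fun p hp => ?_⟩
  have hp2 : 2 ≤ p := (le_max_right _ _).trans hp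
  have h3 := hp₁ p ((le_max_left _ _).trans hp)
  have e1 : β ^ p = Real.exp (-(c * p)) := by
    rw [Real.rpow_def_of_pos h0, hc]
    congr 1
    ring
  have e2 : β ^ (p - 2) = β ^ p * β ^ (-2 : ℝ) := by
    rw [← Real.rpow_add h0]
    congr 1
  rw [← e1] at h3
  have hβp : 0 < β ^ p := Real.rpow_pos_of_pos h0 _
  have h4 : p ^ 2 * β ^ p * (6 + β ^ (-2 : ℝ)) ≤ 1 / 2 := by
    have h5 : c ^ 2 * (p ^ 2 * β ^ p) < c ^ 2 * (1 / (2 * (6 + β ^ (-2 : ℝ)))) := by
      calc c ^ 2 * (p ^ 2 * β ^ p) = (c * p) ^ 2 * β ^ p := by ring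
        _ < δ := h3
        _ = _ := hδ
    have h6 : p ^ 2 * β ^ p < 1 / (2 * (6 + β ^ (-2 : ℝ))) :=
      lt_of_mul_lt_mul_left h5 (by positivity)
    rw [lt_div_iff₀ (by positivity)] at h6
    linarith
  rw [e2]
  have h7 : (p + 2) * (p + 1) ≤ 6 * p ^ 2 := by nlinarith
  have h8 : p * (p - 1) ≤ p ^ 2 := by nlinarith
  have h9 : (p + 2) * (p + 1) * β ^ p ≤ 6 * p ^ 2 * β ^ p :=
    mul_le_mul_of_nonneg_right h7 hβp.le
  have h10 : p * (p - 1) * (β ^ p * β ^ (-2 : ℝ)) ≤ p ^ 2 * (β ^ p * β ^ (-2 : ℝ)) :=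
    mul_le_mul_of_nonneg_right h8 (by positivity)
  linarith

theorem mainJ (k : ℕ) (hk : 2 ≤ k) : ∃ p₀ : ℝ, 2 ≤ p₀ ∧ ∀ p : ℝ, p₀ ≤ p → ∃ N₀ : ℝ,
    ∀ n a b : ℝ, N₀ ≤ n →
    n / (2 * k) ≤ a → a + 2 ≤ b → b ≤ n - 1 → a + b ≤ n →
      ph p n a + ph p n b < ph p n (a + 1) + ph p n (b - 1) := by
  have hk0 : (2 : ℝ) ≤ k := by exact_mod_cast hk
  set β : ℝ := 1 - 1 / (2 * k) with hβ
  have hinv : 1 / (2 * (k : ℝ)) ≤ 1 / 4 := by
    apply one_div_le_one_div_of_le (by norm_num)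
    linarith
  have hinv0 : 0 < 1 / (2 * (k : ℝ)) := by positivity
  have hβ0 : 0 < β := by linarith
  have hβ1 : β < 1 := by linarith
  obtain ⟨p₀, hp₀, hlim⟩ := lim β hβ0 hβ1
  refine ⟨p₀, hp₀, fun p hp => ⟨8 * p, fun n a b hn ha hab hb hsum => ?_⟩⟩
  have hp2 : 2 ≤ p := hp₀.trans hp
  have hl := hlim p hp
  have hn0 : 0 < n := by linarith
  have ha0 : 0 < a := lt_of_lt_of_le (by positivity) ha
  set P : ℝ := n ^ p with hP
  have hP0 : 0 < P := Real.rpow_pos_of_pos hn0 p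
  set x : ℝ := n - b with hx
  set y : ℝ := n - a with hy
  have hx1 : 1 ≤ x := by linarith
  have hxy : x + 2 ≤ y := by linarith
  have hyβ : y ≤ β * n := by
    have : β * n = n - n / (2 * k) := by rw [hβ]; ring
    linarith
  have hx0 : 0 < x := by linarith
  have hy0 : 0 < y := by linarith
  set D : ℝ := b - a with hD
  have hD2 : 2 ≤ D := by linarith
  have hyx : y - x = D := by rw [hx, hy, hD]; ring
  -- the three second differences
  have s2 := secd (q := p + 2) (by linarith) hx0 hxy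
  have s1 := conv_le (r := p + 1) (by linarith) hx0.le hxy
  have s0 := secd (q := p) hp2 hx0 hxy
  have e2 : p + 2 - 2 = p := by ring
  have e1 : p + 2 - 1 = p + 1 := by ring
  rw [e2, e1, hyx] at s2
  rw [hyx] at s0
  have c0 := conv_le (r := p) (by linarith) hx0.le hxy
  -- bounds for the powers of `y`
  have y1 : y ^ p ≤ β ^ p * P := by
    rw [hP, ← Real.mul_rpow hβ0.le hn0.le]
    exact Real.rpow_le_rpow hy0.le hyβ (by linarith)
  have y2 : n ^ 2 * y ^ (p - 2) ≤ β ^ (p - 2) * P := by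
    have h1 : y ^ (p - 2) ≤ (β * n) ^ (p - 2) := Real.rpow_le_rpow hy0.le hyβ (by linarith)
    rw [Real.mul_rpow hβ0.le hn0.le] at h1
    have h2 : n ^ 2 * n ^ (p - 2) = P := by
      rw [hP, ← Real.rpow_natCast, ← Real.rpow_add hn0]
      congr 1
      push_cast
      ring
    calc n ^ 2 * y ^ (p - 2) ≤ n ^ 2 * (β ^ (p - 2) * n ^ (p - 2)) :=
          mul_le_mul_of_nonneg_left h1 (by positivity)
      _ = β ^ (p - 2) * (n ^ 2 * n ^ (p - 2)) := by ring
      _ = _ := by rw [h2]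
  -- the value
  have hval : ∀ t : ℝ, 0 < t → ph p n (n - t) =
      (t ^ (p + 2) - (2 * n - 1) * t ^ (p + 1) + n * (n - 1) * t ^ p) +
        (n - t) * t * (n - 2) ^ p := by
    intro t ht
    have h1 : t ^ (p + 2) = t ^ p * t ^ 2 := by
      rw [Real.rpow_add ht]
      norm_num
    have h2 : t ^ (p + 1) = t ^ p * t := by
      rw [Real.rpow_add_one ht.ne']
    unfold ph
    have h3 : n - (n - t) = t := by ring
    rw [h3, h1, h2]
    ring
  have va : ph p n a = ph p n (n - y) := by congr 1; rw [hy]; ring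
  have vb : ph p n b = ph p n (n - x) := by congr 1; rw [hx]; ring
  have va' : ph p n (a + 1) = ph p n (n - (y - 1)) := by congr 1; rw [hy]; ring
  have vb' : ph p n (b - 1) = ph p n (n - (x + 1)) := by congr 1; rw [hx]; ring
  rw [va, vb, va', vb', hval y hy0, hval x hx0, hval (y - 1) (by linarith),
    hval (x + 1) (by linarith)]
  have hn2 : 3 / 4 * P ≤ (n - 2) ^ p := by
    have hd : 2 / n ≤ 1 := by rw [div_le_one hn0]; linarith
    have h1 := one_add_mul_self_le_rpow_one_add (s := - (2 / n)) (p := p) (by linarith)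
      (by linarith)
    have e : (n - 2) ^ p = P * (1 + - (2 / n)) ^ p := by
      rw [hP, ← Real.mul_rpow hn0.le (by linarith)]
      congr 1
      field_simp
      ring
    rw [e]
    have h2 : 3 / 4 ≤ (1 + - (2 / n)) ^ p := by
      refine le_trans ?_ h1
      have : p * (2 / n) ≤ 1 / 4 := by
        rw [← mul_div_assoc, div_le_iff₀ hn0]; linarith
      linarith
    have h3 := mul_le_mul_of_nonneg_left h2 hP0.le
    linarith
  -- assemble
  have g1 : D * ((p + 2) * (p + 1) * y ^ p + p * (p - 1) * (n ^ 2 * y ^ (p - 2))) ≤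
      D * (1 / 2 * P) := by
    apply mul_le_mul_of_nonneg_left _ (by linarith)
    have h1 : (p + 2) * (p + 1) * y ^ p ≤ (p + 2) * (p + 1) * (β ^ p * P) :=
      mul_le_mul_of_nonneg_left y1 (by positivity)
    have h2 : p * (p - 1) * (n ^ 2 * y ^ (p - 2)) ≤ p * (p - 1) * (β ^ (p - 2) * P) :=
      mul_le_mul_of_nonneg_left y2 (mul_nonneg (by linarith) (by linarith))
    have h3 := mul_le_mul_of_nonneg_right hl hP0.le
    linarith
  set A2 : ℝ := x ^ (p + 2) + y ^ (p + 2) - ((x + 1) ^ (p + 2) + (y - 1) ^ (p + 2)) with hA2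
  set A1 : ℝ := x ^ (p + 1) + y ^ (p + 1) - ((x + 1) ^ (p + 1) + (y - 1) ^ (p + 1)) with hA1
  set A0 : ℝ := x ^ p + y ^ p - ((x + 1) ^ p + (y - 1) ^ p) with hA0
  have a1 : 0 ≤ A1 := by rw [hA1]; linarith
  have a0 : 0 ≤ A0 := by rw [hA0]; linarith
  have g2 : n * (n - 1) * A0 ≤ n ^ 2 * A0 := by
    apply mul_le_mul_of_nonneg_right _ a0
    nlinarith
  have g3 : n ^ 2 * A0 ≤ n ^ 2 * (p * (p - 1) * D * y ^ (p - 2)) :=
    mul_le_mul_of_nonneg_left s0 (by positivity)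
  have g4 : 0 ≤ (2 * n - 1) * A1 := mul_nonneg (by linarith) a1
  have g5 : A2 - (2 * n - 1) * A1 + n * (n - 1) * A0 ≤ D * (1 / 2 * P) := by linarith
  have g6 : D * (3 / 4 * P) ≤ (2 * (D - 1)) * (n - 2) ^ p := by
    have h1 : 0 ≤ (n - 2) ^ p := Real.rpow_nonneg (by linarith) _
    calc D * (3 / 4 * P) ≤ D * (n - 2) ^ p := mul_le_mul_of_nonneg_left hn2 (by linarith)
      _ ≤ (2 * (D - 1)) * (n - 2) ^ p := mul_le_mul_of_nonneg_right (by linarith) h1
  have g7 : 0 < D * P := by positivity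
  have g8 : (n - (y - 1)) * (y - 1) + (n - (x + 1)) * (x + 1) - (n - y) * y - (n - x) * x =
      2 * (D - 1) := by
    rw [hx, hy, hD]
    ring
  have g9 : ((n - (y - 1)) * (y - 1) * (n - 2) ^ p + (n - (x + 1)) * (x + 1) * (n - 2) ^ p) -
      ((n - y) * y * (n - 2) ^ p + (n - x) * x * (n - 2) ^ p) = (2 * (D - 1)) * (n - 2) ^ p := by
    rw [← g8]
    ring
  have g10 : D * (1 / 2 * P) < D * (3 / 4 * P) := by linarith
  rw [hA2, hA1, hA0] at g5
  linarith

end Pool.Agent.N886.LKJ
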