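import Pool.Agent.N461.LK.Stm
import Pool.Agent.N886.LK_J0

/-! Project LK (helper461), leaf J: moving a vertex to a smaller class increases the value. -/

set_option autoImplicit false

namespace Pool.Agent.N886.LK_J

theorem main (k : ℕ) (hk : 2 ≤ k) : Pool.Agent.N461.LK.S_J k :=
  Pool.Agent.N886.LKJ.mainJ k hk

end Pool.Agent.N886.LK_J
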